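import Mathlib
import Pool.Agent.K7.H49.ME.ThickM
import Pool.Agent.K7.H49.ME.Cub

/-!
# Primes between the dilates of consecutive odd squares, for almost all dilations

Let `P_1, ..., P_r` be real polynomials of degree between `2` and `d` with positive leading coefficients, for instance
`P = (2 X - 1) ^ 2`, `P(k) = (2 k - 1) ^ 2`, `P(k + 1) = (2 k + 1) ^ 2`. For every set `𝒦` of positive integers with at least
`N ^ κ` elements in `(N, 2 N]` for infinitely many `N` (`κ > 0`) and almost all real `α_1, ..., α_r > 0` there are infinitely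
many of these `N` such that for at least `c |𝒦 ∩ (N, 2 N]| / (log N) ^ r` of the `k` in `𝒦 ∩ (N, 2 N]` each of the intervals
`(α_i P_i(k), α_i P_i(k + 1))` has the property: its least integer is prime, and it contains `m` further primes at distance at
most `C log k` from `α_i P_i(k)`; `c > 0` and `C` depend on `r`, `m` and `d` only.
-/

set_option autoImplicit false

namespace Pool.Agent.Results.MP_5f6ee5_nt.AlmostAllDilates

open Finset MeasureTheory Filter Polynomial
open scoped Classical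

/-- the set of the `k ∈ 𝒦` with `N < k ≤ 2 N` -/
noncomputable def block (𝒦 : Set ℕ) (N : ℕ) : Finset ℕ := (Ioc N (2 * N)).filter (fun k => k ∈ 𝒦)

/-- `S` is a set of `m + 1` primes in the interval `(x, y)`, all at distance at most `C log k` from `x`, and contains the
least integer greater than `x` (`x ≥ 0`) -/
def Cluster (C : ℝ) (m k : ℕ) (x y : ℝ) (S : Finset ℕ) : Prop :=
  S.card = m + 1 ∧ ⌊x⌋₊ + 1 ∈ S ∧ ∀ p ∈ S, p.Prime ∧ x < p ∧ (p : ℝ) < y ∧ (p : ℝ) ≤ x + C * Real.log k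

/-- the number of the `k ∈ 𝒦`, `N < k ≤ 2 N`, for which each interval `(α_i P_i(k), α_i P_i(k + 1))` contains such a set -/
noncomputable def count {r : ℕ} (C : ℝ) (m : ℕ) (P : Fin r → ℝ[X]) (α : Fin r → ℝ) (𝒦 : Set ℕ) (N : ℕ) : ℕ :=
  ((block 𝒦 N).filter (fun k => ∀ i, ∃ S : Finset ℕ,
    Cluster C m k (α i * (P i).eval (k : ℝ)) (α i * (P i).eval ((k : ℝ) + 1)) S)).card

theorem result (r m d : ℕ) : ∃ c C : ℝ, 0 < c ∧ 0 < C ∧ ∀ P : Fin r → ℝ[X],
    (∀ i, 2 ≤ (P i).natDegree ∧ (P i).natDegree ≤ d ∧ 0 < (P i).leadingCoeff) →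
    ∀ κ : ℝ, 0 < κ → ∀ 𝒦 : Set ℕ, (∃ᶠ N : ℕ in atTop, (N : ℝ) ^ κ ≤ (block 𝒦 N).card) →
    ∀ᵐ α : Fin r → ℝ, (∀ i, 0 < α i) → ∃ᶠ N : ℕ in atTop, (N : ℝ) ^ κ ≤ (block 𝒦 N).card ∧
      c * (block 𝒦 N).card / Real.log N ^ r ≤ count C m P α 𝒦 N := by
  refine ⟨((1 / 4) / (2 * (((d + 1 : ℕ) : ℝ) + 1))) ^ r / 2, 8 * (m + 1) * (d + 2) + 1, by positivity, by positivity, ?_⟩
  intro P hP κ hκ 𝒦 h𝒦
  have hmain := Pool.Agent.K7.H49.ME.thick_metric r d (fun _ => Pool.Agent.K7.H49.ME.Clus m (8 * (m + 1))) (1 / 4)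
    (by norm_num) (fun _ => Pool.Agent.K7.H49.ME.thick_clus m) P (fun _ _ => 1) 1 (fun _ _ => by norm_num)
    (fun i => by have := (hP i).1; omega) (fun i => (hP i).2.1)
    (fun i => (hP i).2.2) (block 𝒦) (fun N => filter_subset _ _) κ hκ h𝒦
  filter_upwards [hmain] with α hα hα0
  have ht : Tendsto (fun N : ℕ => (N : ℝ)) atTop atTop := tendsto_natCast_atTop_atTop
  have htL : Tendsto (fun N : ℕ => Real.log (N : ℝ)) atTop atTop := Real.tendsto_log_atTop.comp ht
  -- growth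
  have hex := fun i => Pool.Agent.K7.H49.ME.diff_poly (P i) (by have := (hP i).1; omega) (hP i).2.2
  choose Q hQd hQl hQe using hex
  have hQlc : ∀ i, 0 < (Q i).leadingCoeff := by
    intro i
    rw [hQl]
    have : (0 : ℝ) < (P i).natDegree := by exact_mod_cast (by have := (hP i).1; omega : 0 < (P i).natDegree)
    have := (hP i).2.2
    positivity
  have hev : ∀ i, ∀ᶠ N : ℕ in atTop, ∀ k : ℕ, N < k → k ≤ 2 * N →
      1 ≤ α i * (P i).eval (k : ℝ) ∧ α i * (P i).eval (k : ℝ) + 1 ≤ (k : ℝ) ^ (d + 1) ∧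
      (8 * (m + 1) * (d + 2) + 1) * Real.log k + 1 < α i * ((Q i).eval (k : ℝ)) := by
    intro i
    have hai := hα0 i
    have hPlc := (hP i).2.2
    have hQi := hQlc i
    have h8 : ∀ᶠ N : ℕ in atTop, (8 * ((m : ℝ) + 1) * (d + 2) + 1) * (2 * Real.log N) + 1 <
        α i * (Q i).leadingCoeff / 2 * N := by
      have hc : 0 < α i * (Q i).leadingCoeff / 2 := by positivity
      have h1 := Real.isLittleO_log_id_atTop.def (show (0 : ℝ) < (α i * (Q i).leadingCoeff / 2) /
        (4 * (8 * ((m : ℝ) + 1) * (d + 2) + 1)) by positivity)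
      filter_upwards [ht.eventually h1, ht.eventually_ge_atTop (3 / (α i * (Q i).leadingCoeff / 2)),
        eventually_ge_atTop 1] with N e1 e2 e3
      have hNr : (1 : ℝ) ≤ N := by exact_mod_cast e3
      rw [Real.norm_of_nonneg (Real.log_nonneg hNr)] at e1
      simp only [id] at e1
      rw [Real.norm_of_nonneg (by linarith)] at e1
      rw [div_le_iff₀ hc] at e2
      have e4 : (8 * ((m : ℝ) + 1) * (d + 2) + 1) * (2 * Real.log N) ≤ α i * (Q i).leadingCoeff / 2 * N / 2 := by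
        calc (8 * ((m : ℝ) + 1) * (d + 2) + 1) * (2 * Real.log N) ≤ (8 * ((m : ℝ) + 1) * (d + 2) + 1) *
              (2 * ((α i * (Q i).leadingCoeff / 2) / (4 * (8 * ((m : ℝ) + 1) * (d + 2) + 1)) * N)) := by
              apply mul_le_mul_of_nonneg_left _ (by positivity)
              linarith
          _ = _ := by field_simp; ring
      linarith
    filter_upwards [Pool.Agent.K7.H49.ME.poly_growth (P i) hPlc (by have := (hP i).1; omega),
      Pool.Agent.K7.H49.ME.poly_growth (Q i) hQi (by rw [hQd]; have := (hP i).1; omega), h8,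
      ht.eventually_ge_atTop (2 / (α i * (P i).leadingCoeff)),
      ht.eventually_ge_atTop (α i * 2 ^ (d + 2) * (P i).leadingCoeff + 1), eventually_ge_atTop 2]
      with N g1 g2 g3 g4 g5 hN k hk hk2
    have hNr : (2 : ℝ) ≤ N := by exact_mod_cast hN
    have hkN : (N : ℝ) ≤ k := by exact_mod_cast hk.le
    have hk2N : (k : ℝ) ≤ 2 * N := by exact_mod_cast hk2
    have hk0 : (0 : ℝ) < k := by linarith
    obtain ⟨a1, a2⟩ := g1.1 k hk hk2
    obtain ⟨b1, b2⟩ := g2.1 k hk hk2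
    have hN1 : (N : ℝ) ≤ (N : ℝ) ^ (P i).natDegree := le_self_pow₀ (by linarith) (by have := (hP i).1; omega)
    have hN2 : (N : ℝ) ≤ (N : ℝ) ^ (Q i).natDegree := le_self_pow₀ (by linarith) (by rw [hQd]; have := (hP i).1; omega)
    refine ⟨?_, ?_, ?_⟩
    · rw [div_le_iff₀ (by positivity)] at g4
      calc (1 : ℝ) ≤ N * (α i * (P i).leadingCoeff) / 2 := by linarith
        _ = α i * ((P i).leadingCoeff / 2 * N) := by ring
        _ ≤ α i * ((P i).leadingCoeff / 2 * (N : ℝ) ^ (P i).natDegree) := by gcongr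
        _ ≤ _ := mul_le_mul_of_nonneg_left a1 hai.le
    · have e1 : (N : ℝ) ^ (P i).natDegree ≤ (N : ℝ) ^ d := pow_le_pow_right₀ (by linarith) (hP i).2.1
      have e2 : (2 : ℝ) ^ ((P i).natDegree + 2) ≤ 2 ^ (d + 2) := pow_le_pow_right₀ (by norm_num) (by have := (hP i).2.1; omega)
      have e3 : (1 : ℝ) ≤ (N : ℝ) ^ d := one_le_pow₀ (by linarith)
      calc α i * (P i).eval (k : ℝ) + 1 ≤ α i * (2 ^ ((P i).natDegree + 2) * ((P i).leadingCoeff / 2 * (N : ℝ) ^ (P i).natDegree)) + 1 := by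
            have := mul_le_mul_of_nonneg_left a2 hai.le
            linarith
        _ ≤ α i * (2 ^ (d + 2) * ((P i).leadingCoeff / 2 * (N : ℝ) ^ d)) + (N : ℝ) ^ d := by gcongr
        _ = (α i * 2 ^ (d + 2) * (P i).leadingCoeff / 2 + 1) * (N : ℝ) ^ d := by ring
        _ ≤ N * (N : ℝ) ^ d := by
            apply mul_le_mul_of_nonneg_right _ (by positivity)
            have : 0 ≤ α i * 2 ^ (d + 2) * (P i).leadingCoeff := by positivity
            linarith
        _ = (N : ℝ) ^ (d + 1) := by rw [pow_succ]; ring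
        _ ≤ _ := pow_le_pow_left₀ (by linarith) hkN _
    · have e1 : Real.log k ≤ 2 * Real.log N := by
        calc Real.log k ≤ Real.log (N * N) := Real.log_le_log hk0 (by nlinarith)
          _ = 2 * Real.log N := by rw [Real.log_mul (by positivity) (by positivity)]; ring
      calc (8 * ((m : ℝ) + 1) * (d + 2) + 1) * Real.log k + 1 ≤ (8 * ((m : ℝ) + 1) * (d + 2) + 1) * (2 * Real.log N) + 1 := by
            have := mul_le_mul_of_nonneg_left e1 (show 0 ≤ 8 * ((m : ℝ) + 1) * (d + 2) + 1 by positivity)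
            linarith
        _ < α i * (Q i).leadingCoeff / 2 * N := g3
        _ = α i * ((Q i).leadingCoeff / 2 * N) := by ring
        _ ≤ α i * ((Q i).leadingCoeff / 2 * (N : ℝ) ^ (Q i).natDegree) := by gcongr
        _ ≤ _ := mul_le_mul_of_nonneg_left b1 hai.le
  refine ((hα hα0).and_eventually ((eventually_all.2 hev).and (eventually_ge_atTop 3))).mono ?_
  rintro N ⟨⟨hN1, hN2⟩, hN3, hN4⟩
  refine ⟨hN1, hN2.trans (Nat.cast_le.2 (card_le_card ?_))⟩
  intro k hk
  obtain ⟨hk1, hk2⟩ := Finset.mem_filter.1 hk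
  refine Finset.mem_filter.2 ⟨hk1, fun i => ?_⟩
  obtain ⟨hp, hG⟩ := hk2 i
  have hkI := (mem_Ioc.1 ((mem_filter.1 hk1).1))
  obtain ⟨e1, e2, e3⟩ := hN3 i k hkI.1 hkI.2
  set x : ℝ := α i * (P i).eval (k : ℝ) with hx
  have hkr : (3 : ℝ) < k := by exact_mod_cast (by omega : 3 < k)
  have hlogk : 1 ≤ Real.log k := by
    rw [Real.le_log_iff_exp_le (by linarith)]
    have := Real.exp_one_lt_d9
    linarith
  have hfl : (1 + 1 * ⌊x⌋).toNat = ⌊x⌋₊ + 1 := by
    have h1 : ⌊x⌋.toNat = ⌊x⌋₊ := Int.floor_toNat x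
    have h0 : 0 ≤ ⌊x⌋ := Int.floor_nonneg.2 (by linarith)
    omega
  rw [hfl] at hp hG
  set q : ℕ := ⌊x⌋₊ + 1 with hq
  have hqx : (q : ℝ) ≤ x + 1 := by
    rw [hq]; push_cast
    have := Nat.floor_le (show 0 ≤ x by linarith)
    linarith
  have hxq : x < q := by
    rw [hq]; push_cast
    exact Nat.lt_floor_add_one x
  have hlogq : Real.log q ≤ (d + 1) * Real.log k := by
    calc Real.log q ≤ Real.log ((k : ℝ) ^ (d + 1)) := Real.log_le_log (by linarith) (by linarith)
      _ = _ := by rw [Real.log_pow]; push_cast; ring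
  have hlogq0 : 0 ≤ Real.log q := Real.log_natCast_nonneg q
  -- the primes after `q`
  set T := (Ioc q (q + ⌊(8 * ((m : ℝ) + 1)) * Real.log q⌋₊)).filter (fun p : ℕ => p.Prime) with hT
  have hTm : m ≤ T.card := hG
  obtain ⟨S, hST, hSc⟩ := exists_subset_card_eq hTm
  have hqS : q ∉ S := by
    intro h
    have := hST h
    rw [hT, mem_filter, mem_Ioc] at this
    omega
  refine ⟨insert q S, ?_, mem_insert_self _ _, ?_⟩
  · rw [card_insert_of_notMem hqS, hSc]
  · have hy : α i * (P i).eval ((k : ℝ) + 1) = x + α i * (Q i).eval (k : ℝ) := by rw [hQe, hx]; ring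
    have hkey : ∀ p : ℕ, q ≤ p → p ≤ q + ⌊(8 * ((m : ℝ) + 1)) * Real.log q⌋₊ →
        x < p ∧ (p : ℝ) < x + α i * (Q i).eval (k : ℝ) ∧ (p : ℝ) ≤ x + (8 * (m + 1) * (d + 2) + 1) * Real.log k := by
      intro p h1 h2
      have h1' : (q : ℝ) ≤ p := by exact_mod_cast h1
      have h2' : (p : ℝ) ≤ q + (8 * ((m : ℝ) + 1)) * Real.log q := by
        have h3 : (p : ℝ) ≤ q + (⌊(8 * ((m : ℝ) + 1)) * Real.log q⌋₊ : ℝ) := by exact_mod_cast h2
        have h4 := Nat.floor_le (show 0 ≤ (8 * ((m : ℝ) + 1)) * Real.log q by positivity)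
        linarith
      have h3 : (8 * ((m : ℝ) + 1)) * Real.log q ≤ (8 * ((m : ℝ) + 1)) * ((d + 1) * Real.log k) :=
        mul_le_mul_of_nonneg_left hlogq (by positivity)
      have h4 : (8 * ((m : ℝ) + 1)) * ((d + 1) * Real.log k) + 1 ≤ (8 * (m + 1) * (d + 2) + 1) * Real.log k := by
        have h5 : (0 : ℝ) ≤ 8 * ((m : ℝ) + 1) * Real.log k := by positivity
        have h6 : (8 * ((m : ℝ) + 1) * (d + 2) + 1) * Real.log k =
          (8 * ((m : ℝ) + 1)) * ((d + 1) * Real.log k) + 8 * ((m : ℝ) + 1) * Real.log k + Real.log k := by ring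
        linarith
      refine ⟨by linarith, by linarith, by linarith⟩
    rw [hy]
    intro p hpS
    rw [mem_insert] at hpS
    rcases hpS with rfl | hpS
    · exact ⟨hp, hkey _ le_rfl (Nat.le_add_right _ _)⟩
    · have h1 := hST hpS
      rw [hT, mem_filter, mem_Ioc] at h1
      exact ⟨h1.2, hkey p h1.1.1.le h1.1.2⟩

end Pool.Agent.Results.MP_5f6ee5_nt.AlmostAllDilates
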