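import Mathlib
import Pool.Agent.K7.H49.ME.Plc
import Pool.Agent.K7.H49.ME.FracQ

/-!
# Primes at prescribed places between consecutive odd squares, for almost all places

Let `I_k = ((2 k - 1) ^ 2, (2 k + 1) ^ 2)`. For every `m` there is a `C` such that for all `2/3 < θ < 1` and almost all real
`α > 0` there are infinitely many `N` such that for at least `N / (96 log N)` of the `k` in `(N, 2 N]` the place
`q = (2 k - 1) ^ 2 + 2 ⌊α k ^ θ⌋` is a prime of `I_k` and at least `m` further primes of `I_k` lie in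
`(q, q + C log k]`.
-/

set_option autoImplicit false

namespace Pool.Agent.Results.MP_5f6ee5_nt.GenericPlaces

open Finset MeasureTheory Filter
open scoped Classical

/-- the place `(2 k - 1) ^ 2 + 2 ⌊α k ^ θ⌋` -/
noncomputable def place (θ α : ℝ) (k : ℕ) : ℕ := (2 * k - 1) ^ 2 + 2 * ⌊α * (k : ℝ) ^ θ⌋₊

/-- `S` is a set of `m + 1` primes in `((2 k - 1) ^ 2, (2 k + 1) ^ 2)` that contains `q` and lies in `[q, q + C log k]` -/
def Cluster (C : ℝ) (m k q : ℕ) (S : Finset ℕ) : Prop :=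
  S.card = m + 1 ∧ q ∈ S ∧ ∀ p ∈ S, p.Prime ∧ (2 * k - 1) ^ 2 < p ∧ p < (2 * k + 1) ^ 2 ∧ q ≤ p ∧
    (p : ℝ) ≤ q + C * Real.log k

/-- the number of the `k` with `N < k ≤ 2 N` for which there is such a set at the place `q = place θ α k` -/
noncomputable def count (C : ℝ) (m : ℕ) (θ α : ℝ) (N : ℕ) : ℕ :=
  ((Ioc N (2 * N)).filter (fun k => ∃ S : Finset ℕ, Cluster C m k (place θ α k) S)).card

theorem result (m : ℕ) : ∃ C : ℝ, 0 < C ∧ ∀ θ : ℝ, 2 / 3 < θ → θ < 1 →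
    ∀ᵐ α : ℝ, 0 < α → ∃ᶠ N : ℕ in atTop, (N : ℝ) / (96 * Real.log N) ≤ count C m θ α N := by
  refine ⟨1152 * (m + 1), by positivity, ?_⟩
  intro θ hθ hθ1
  filter_upwards [Pool.Agent.K7.H49.ME.places Pool.Agent.K7.H49.ME.fracHyp m θ hθ hθ1] with α hα hα0
  have hm0 : (0 : ℝ) ≤ m := Nat.cast_nonneg m
  have ht : Tendsto (fun k : ℕ => (k : ℝ)) atTop atTop := tendsto_natCast_atTop_atTop
  have e1 : ∀ᶠ k : ℕ in atTop, 1 / α ≤ (k : ℝ) ^ θ :=
    ((tendsto_rpow_atTop (show 0 < θ by linarith)).comp ht).eventually_ge_atTop _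
  have e2 : ∀ᶠ k : ℕ in atTop, α ≤ (k : ℝ) ^ (1 - θ) :=
    ((tendsto_rpow_atTop (show 0 < 1 - θ by linarith)).comp ht).eventually_ge_atTop _
  have e3 : ∀ᶠ k : ℕ in atTop, 1152 * ((m : ℝ) + 1) * Real.log k ≤ k := by
    have h1 := Real.isLittleO_log_id_atTop.def (show (0 : ℝ) < 1 / (1152 * (m + 1)) by positivity)
    filter_upwards [ht.eventually h1, eventually_ge_atTop 1] with k g1 g2
    have hkr : (1 : ℝ) ≤ k := by exact_mod_cast g2
    rw [Real.norm_of_nonneg (Real.log_nonneg hkr)] at g1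
    simp only [id] at g1
    rw [Real.norm_of_nonneg (by linarith)] at g1
    calc 1152 * ((m : ℝ) + 1) * Real.log k ≤ 1152 * ((m : ℝ) + 1) * (1 / (1152 * (m + 1)) * k) :=
          mul_le_mul_of_nonneg_left g1 (by positivity)
      _ = k := by field_simp
  have hev : ∀ᶠ k : ℕ in atTop, 9 ≤ k ∧ 1 / α ≤ (k : ℝ) ^ θ ∧ α ≤ (k : ℝ) ^ (1 - θ) ∧
      1152 * ((m : ℝ) + 1) * Real.log k ≤ k := by
    filter_upwards [eventually_ge_atTop 9, e1, e2, e3] with k h1 h2 h3 h4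
    exact ⟨h1, h2, h3, h4⟩
  obtain ⟨k₀, hk₀⟩ := Filter.eventually_atTop.1 hev
  refine ((hα hα0).and_eventually (eventually_ge_atTop k₀)).mono ?_
  rintro N ⟨hN1, hN2⟩
  have h96 : (N : ℝ) / (96 * Real.log N) = 1 / 96 * (N : ℝ) / Real.log N := by ring
  rw [h96]
  refine hN1.trans (Nat.cast_le.2 (card_le_card ?_))
  intro k hk
  obtain ⟨hk1, hk2, hk3⟩ := Finset.mem_filter.1 hk
  refine Finset.mem_filter.2 ⟨hk1, ?_⟩
  rw [mem_Ioc] at hk1
  obtain ⟨g0, g1, g2, g3⟩ := hk₀ k (by omega)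
  have hkr : (9 : ℝ) ≤ k := by exact_mod_cast g0
  have hk0 : (0 : ℝ) < k := by linarith
  set x : ℝ := α * (k : ℝ) ^ θ with hx
  have hx1 : 1 ≤ x := by
    rw [div_le_iff₀ hα0] at g1
    rw [hx]; linarith
  have hxk : x ≤ k := by
    calc x ≤ (k : ℝ) ^ (1 - θ) * (k : ℝ) ^ θ := mul_le_mul_of_nonneg_right g2 (by positivity)
      _ = k := by rw [← Real.rpow_add hk0]; norm_num
  have hfl : ((2 * (k : ℤ) - 1) ^ 2 + 2 * ⌊x⌋).toNat = place θ α k := by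
    unfold place
    rw [← hx]
    obtain ⟨j, hj⟩ : ∃ j : ℕ, k = j + 1 := ⟨k - 1, by omega⟩
    have h1 : ⌊x⌋ = ((⌊x⌋₊ : ℕ) : ℤ) := (Int.natCast_floor_eq_floor (by linarith)).symm
    have h2 : 2 * k - 1 = 2 * j + 1 := by omega
    rw [h1, h2, hj]
    have h3 : (2 * ((j + 1 : ℕ) : ℤ) - 1) ^ 2 + 2 * ((⌊x⌋₊ : ℕ) : ℤ) = (((2 * j + 1) ^ 2 + 2 * ⌊x⌋₊ : ℕ) : ℤ) := by
      push_cast; ring
    rw [h3, Int.toNat_natCast]
  rw [hfl] at hk2 hk3
  set q : ℕ := place θ α k with hq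
  have hx1n : 1 ≤ ⌊x⌋₊ := Nat.le_floor (by exact_mod_cast hx1)
  have hxkn : ⌊x⌋₊ ≤ k := by
    have := Nat.floor_le (show 0 ≤ x by linarith)
    have h2 : ((⌊x⌋₊ : ℕ) : ℝ) ≤ k := this.trans hxk
    exact_mod_cast h2
  have hqe : q = (2 * k - 1) ^ 2 + 2 * ⌊x⌋₊ := hq
  have hq1 : (2 * k - 1) ^ 2 < q := by omega
  have hsq : (2 * k - 1) ^ 2 + 8 * k = (2 * k + 1) ^ 2 := by
    obtain ⟨j, hj⟩ : ∃ j : ℕ, k = j + 1 := ⟨k - 1, by omega⟩
    have h2 : 2 * k - 1 = 2 * j + 1 := by omega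
    rw [h2, hj]; ring
  have hq2 : q + 6 * k ≤ (2 * k + 1) ^ 2 := by omega
  have hlogq : Real.log q ≤ 3 * Real.log k := by
    have h1 : (q : ℝ) ≤ (k : ℝ) ^ 3 := by
      have h2 : q ≤ k ^ 3 := by
        calc q ≤ (2 * k + 1) ^ 2 := by omega
          _ ≤ (3 * k) ^ 2 := Nat.pow_le_pow_left (by omega) 2
          _ = 9 * k ^ 2 := by ring
          _ ≤ k * k ^ 2 := Nat.mul_le_mul_right _ g0
          _ = k ^ 3 := by ring
      exact_mod_cast h2
    have hq0 : (0 : ℝ) < q := by exact_mod_cast (by omega : 0 < q)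
    calc Real.log q ≤ Real.log ((k : ℝ) ^ 3) := Real.log_le_log hq0 h1
      _ = _ := by rw [Real.log_pow]; push_cast; ring
  have hlogq0 : 0 ≤ Real.log q := Real.log_natCast_nonneg q
  -- the primes after `q`
  set T := (Ioc q (q + ⌊(384 * ((m : ℝ) + 1)) * Real.log q⌋₊)).filter (fun p : ℕ => p.Prime) with hT
  have hTm : m ≤ T.card := hk3
  obtain ⟨S, hST, hSc⟩ := exists_subset_card_eq hTm
  have hqS : q ∉ S := by
    intro h
    have := hST h
    rw [hT, mem_filter, mem_Ioc] at this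
    omega
  have hfl2 : ((⌊(384 * ((m : ℝ) + 1)) * Real.log q⌋₊ : ℕ) : ℝ) ≤ 1152 * ((m : ℝ) + 1) * Real.log k := by
    calc ((⌊(384 * ((m : ℝ) + 1)) * Real.log q⌋₊ : ℕ) : ℝ) ≤ (384 * ((m : ℝ) + 1)) * Real.log q :=
          Nat.floor_le (by positivity)
      _ ≤ (384 * ((m : ℝ) + 1)) * (3 * Real.log k) := mul_le_mul_of_nonneg_left hlogq (by positivity)
      _ = _ := by ring
  have hfl3 : ⌊(384 * ((m : ℝ) + 1)) * Real.log q⌋₊ ≤ k := by exact_mod_cast hfl2.trans g3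
  have hlogk : 0 ≤ 1152 * ((m : ℝ) + 1) * Real.log k := by
    have := Real.log_nonneg (show (1 : ℝ) ≤ k by linarith)
    positivity
  refine ⟨insert q S, ?_, mem_insert_self _ _, ?_⟩
  · rw [card_insert_of_notMem hqS, hSc]
  · intro p hpS
    rw [mem_insert] at hpS
    rcases hpS with rfl | hpS
    · exact ⟨hk2, hq1, by omega, le_rfl, by linarith⟩
    · have h1 := hST hpS
      rw [hT, mem_filter, mem_Ioc] at h1
      obtain ⟨⟨h2, h3⟩, h4⟩ := h1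
      refine ⟨h4, by omega, by omega, h2.le, ?_⟩
      have h5 : (p : ℝ) ≤ q + ((⌊(384 * ((m : ℝ) + 1)) * Real.log q⌋₊ : ℕ) : ℝ) := by exact_mod_cast h3
      linarith

end Pool.Agent.Results.MP_5f6ee5_nt.GenericPlaces
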