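import Mathlib
import Pool.Agent.K7.H13.PL.Fin

set_option autoImplicit false

/-!
# Integers with an odd number of prime factors between any two consecutive squares
-/

open ArithmeticFunction

namespace Pool.Agent.Results.MP_5f6ee5_nt.LegendreIntervals

/-- For every `δ > 0` and all large `N`, at least `N ^ (1 - δ)` integers `n` strictly between `N ^ 2`
and `(N + 1) ^ 2` have an odd number `Ω(n)` of prime factors (with multiplicity), and at least
`N ^ (1 - δ)` have an even number. -/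
theorem result : ∀ δ : ℝ, 0 < δ → ∃ N₀ : ℕ, ∀ N : ℕ, N₀ ≤ N →
    (N : ℝ) ^ (1 - δ) ≤ ({n : ℕ | N ^ 2 < n ∧ n < (N + 1) ^ 2 ∧ Odd (cardFactors n)}.ncard : ℝ) ∧
    (N : ℝ) ^ (1 - δ) ≤ ({n : ℕ | N ^ 2 < n ∧ n < (N + 1) ^ 2 ∧ Even (cardFactors n)}.ncard : ℝ) := by
  intro δ hδ
  obtain ⟨k₁, h1⟩ := K7.H13.PL.all_main (-1) (Or.inr rfl) δ hδ
  obtain ⟨k₂, h2⟩ := K7.H13.PL.all_main 1 (Or.inl rfl) δ hδ
  refine ⟨max k₁ k₂, fun k hk => ⟨?_, ?_⟩⟩
  · refine (h1 k ((le_max_left _ _).trans hk)).trans (le_of_eq ?_)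
    rw [← Set.ncard_coe_finset]
    congr 2
    ext n
    simp only [Finset.coe_filter, Finset.mem_Ioo, Set.mem_ofPred_eq, K7.H13.PL.lam_odd]
    tauto
  · refine (h2 k ((le_max_right _ _).trans hk)).trans (le_of_eq ?_)
    rw [← Set.ncard_coe_finset]
    congr 2
    ext n
    simp only [Finset.coe_filter, Finset.mem_Ioo, Set.mem_ofPred_eq, K7.H13.PL.lam_even]
    tauto

end Pool.Agent.Results.MP_5f6ee5_nt.LegendreIntervals
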