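import Mathlib
import Pool.Agent.K7.H13.PL.Fin

set_option autoImplicit false

/-!
# Odd integers with an odd number of prime factors between consecutive odd squares

Q1 asks for two primes, that is for two odd integers `n` with `Ω(n) = 1`, strictly between
`(2k - 1)^2` and `(2k + 1)^2`. We show that for all large `k` there are many odd integers `n` in this
interval for which `Ω(n)` (the number of prime factors, with multiplicity) is odd, and many for which
it is even: at least `k ^ (1 - δ)` of both kinds, for every `δ > 0`. So there is no obstruction from the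
parity of `Ω` to Q1.

Proof. Let `x = 2k`. If `b, b + 2` are odd numbers near `x` and if `m` is an odd number with `m b`,
`m (b + 2)` in the interval, then a sign change `λ(b) ≠ λ(b + 2)` of the Liouville function gives
integers with both signs. The neighbours `b = x + τ, b + 2` have such a common cofactor `m` except
when some integer multiple of `b + 1` is very close to `x ^ 2`; we show that among the `b` in
`(x, (1 + ε) x)` there are only `o(ε ^ 2) x` exceptions as `ε → 0`. On the other hand there are
at least `c ε ^ 2 x` sign changes of `λ` among these `b`: multiplying the sign changes at the scale `ε x`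
(they have a positive density there, by the method of Matomäki and Radziwiłł; library of helpers 376 and
970) by suitable odd numbers of the size `1 / ε` one gets back to this range.
-/

open ArithmeticFunction

namespace Pool.Agent.Results.MP_5f6ee5_nt.ParityVersion

/-- the odd integers strictly between `(2k - 1)^2` and `(2k + 1)^2` -/
def I (k : ℕ) : Set ℕ := {n | (2 * k - 1) ^ 2 < n ∧ n < (2 * k + 1) ^ 2 ∧ Odd n}

/-- For every `δ > 0` and all large `k`, at least `k ^ (1 - δ)` odd integers `n` between `(2k - 1)^2`
and `(2k + 1)^2` have an odd number `Ω(n)` of prime factors (with multiplicity), and at least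
`k ^ (1 - δ)` have an even number. -/
theorem result : ∀ δ : ℝ, 0 < δ → ∃ k₀ : ℕ, ∀ k : ℕ, k₀ ≤ k →
    (k : ℝ) ^ (1 - δ) ≤ ({n ∈ I k | Odd (cardFactors n)}.ncard : ℝ) ∧
    (k : ℝ) ^ (1 - δ) ≤ ({n ∈ I k | Even (cardFactors n)}.ncard : ℝ) := by
  intro δ hδ
  obtain ⟨k₁, h1⟩ := K7.H13.PL.odd_main (-1) (Or.inr rfl) δ hδ
  obtain ⟨k₂, h2⟩ := K7.H13.PL.odd_main 1 (Or.inl rfl) δ hδ
  refine ⟨max k₁ k₂, fun k hk => ⟨?_, ?_⟩⟩
  · refine (h1 k ((le_max_left _ _).trans hk)).trans (le_of_eq ?_)
    rw [← Set.ncard_coe_finset]
    congr 2
    ext n
    simp only [Finset.coe_filter, Finset.mem_Ioo, Set.mem_ofPred_eq, I, K7.H13.PL.lam_odd]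
    tauto
  · refine (h2 k ((le_max_right _ _).trans hk)).trans (le_of_eq ?_)
    rw [← Set.ncard_coe_finset]
    congr 2
    ext n
    simp only [Finset.coe_filter, Finset.mem_Ioo, Set.mem_ofPred_eq, I, K7.H13.PL.lam_even]
    tauto

end Pool.Agent.Results.MP_5f6ee5_nt.ParityVersion
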